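import Mathlib
import Pool.Agent.H400.FbTwo

/-!
# MP_370e98_al, Q2: finite basability over the two-element group is decidable, with an explicit
criterion

* Part 1 is Q2 itself, in the format of the frozen statement of Q1: one computable predicate on
  Cayley tables tells, for every associative table, whether the semigroup is completely 0-simple,
  all its maximal subgroups with nonzero identity element have exactly two elements, and it is
  finitely based.
* Part 2 is the criterion behind it for the two-element group `ZMod 2`: the Rees matrix semigroup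
  with zero is finitely based iff its sandwich matrix has a rectangular pattern of nonzero entries
  or some 4-cycle of nonzero entries has a nontrivial value.
-/

set_option autoImplicit false

namespace Pool.Agent.Results.MP_370e98_al.OverTwoElementGroup

open Pool.Agent.W435.FB

theorem result :
    -- Part 1: the decision problem for Cayley tables
    (∃ P : ℕ × List (List ℕ) → Prop, ComputablePred P ∧
      ∀ (n : ℕ) (op : Fin n → Fin n → Fin n),
        (∀ a b c : Fin n, op (op a b) c = op a (op b c)) →
        (P (n, List.ofFn (fun i : Fin n => List.ofFn (fun j : Fin n => ((op i j : Fin n) : ℕ)))) ↔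
          ((∃ z : Fin n, (∀ x : Fin n, op z x = z ∧ op x z = z) ∧
              (∃ x y : Fin n, op x y ≠ z) ∧
              (∀ I : Set (Fin n), z ∈ I → (∀ x ∈ I, ∀ s : Fin n, op s x ∈ I ∧ op x s ∈ I) →
                  I = {z} ∨ I = Set.univ) ∧
              (∃ e : Fin n, e ≠ z ∧ op e e = e ∧
                  ∀ f : Fin n, f ≠ z → op f f = f → op e f = f → op f e = f → f = e) ∧
              (∀ e : Fin n, e ≠ z → op e e = e →
                {x : Fin n | op e x = x ∧ op x e = x ∧
                  ∃ y : Fin n, op e y = y ∧ op y e = y ∧ op x y = e ∧ op y x = e}.ncard = 2)) ∧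
           (∃ B : Finset ((ℕ × List ℕ) × (ℕ × List ℕ)),
              (∀ p ∈ B, ∀ f : ℕ → Fin n,
                  p.1.2.foldl (fun a y => op a (f y)) (f p.1.1) =
                    p.2.2.foldl (fun a y => op a (f y)) (f p.2.1)) ∧
              ∀ u v : ℕ × List ℕ,
                (∀ f : ℕ → Fin n,
                  u.2.foldl (fun a y => op a (f y)) (f u.1) =
                    v.2.foldl (fun a y => op a (f y)) (f v.1)) →
                ∀ (T : Type) [Semigroup T],
                  (∀ p ∈ B, ∀ g : ℕ → T,
                    p.1.2.foldl (fun a y => a * g y) (g p.1.1) =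
                      p.2.2.foldl (fun a y => a * g y) (g p.2.1)) →
                  ∀ g : ℕ → T,
                    u.2.foldl (fun a y => a * g y) (g u.1) =
                      v.2.foldl (fun a y => a * g y) (g v.1))))) ∧
    -- Part 2: the criterion over the two-element group
    (∀ (I L : Type) [Finite L] [Nonempty I] (P : L → I → Option (ZMod 2)), Reg P →
      (FinBased (ARM (ZMod 2) I L P) ↔
        ((∀ l l' i i', (P l i).isSome → (P l i').isSome → (P l' i).isSome → (P l' i').isSome) ∨
          ∃ (l m : L) (i j : I) (a b c d : ZMod 2), P l i = some a ∧ P m i = some b ∧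
            P m j = some c ∧ P l j = some d ∧ a - b + c - d ≠ 0))) := by
  refine ⟨⟨fun p => PredTab p.1 p.2 ∧ H400.FbTwo.TwoTab p.1 p.2, H400.FbTwo.comp_two, ?_⟩, ?_⟩
  · intro n op hop
    exact H400.FbTwo.tables op hop
  · intro I L _ _ P hP
    rw [H400.FbTwo.crit_two P hP]
    refine or_congr Iff.rfl ⟨?_, ?_⟩
    · rintro ⟨c, ⟨l, m, i, j, a, b, c', d, h1, h2, h3, h4, h5⟩, hc⟩
      exact ⟨l, m, i, j, a, b, c', d, h1, h2, h3, h4, h5 ▸ hc⟩
    · rintro ⟨l, m, i, j, a, b, c', d, h1, h2, h3, h4, hc⟩
      exact ⟨_, ⟨l, m, i, j, a, b, c', d, h1, h2, h3, h4, rfl⟩, hc⟩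

end Pool.Agent.Results.MP_370e98_al.OverTwoElementGroup
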